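import Pool.Agent.PST.StmtsET2
import Pool.Agent.Helper84_PSS.RFE

/-!
# PST, block ET, row RFP: relative Frobenius families from the frame
-/

open scoped BigOperators TensorProduct

noncomputable section

namespace Pool.Agent.PST.ET.H23

open Pool.Agent.PFC (Fx BK cj bi tw PS Frm PMid IsFr)
open Pool.Agent.PSS (RF)

theorem rep {F H : Type} [Field F] [Ring H] [Algebra F H] [FiniteDimensional F H]
    (lam : H →ₗ[F] F) (hn : ∀ a, (∀ b, lam (a * b) = 0) → a = 0) (c : H →ₗ[F] F) :
    ∃ s, ∀ a, c a = lam (s * a) := by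
  let T : H →ₗ[F] (H →ₗ[F] F) := (LinearMap.mul F H).compr₂ lam
  have hinj : Function.Injective T := by
    rw [injective_iff_map_eq_zero]
    intro a ha
    refine hn a fun b => ?_
    have h1 : T a b = 0 := by rw [ha]; rfl
    exact h1
  have hdim : Module.finrank F H = Module.finrank F (H →ₗ[F] F) :=
    (Subspace.dual_finrank_eq (K := F) (V := H)).symm
  have hsur : Function.Surjective T :=
    (LinearMap.injective_iff_surjective_of_finrank_eq_finrank hdim).1 hinj
  obtain ⟨s, hs⟩ := hsur c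
  refine ⟨s, fun a => ?_⟩
  rw [← hs]
  rfl

theorem rfp : RfpStmt := by
  intro F V E H _ _ _ _ _ _ φ α lam hfin hsym hnd hps
  obtain ⟨Ω, hΩ, hact, b, c, ⟨hb, hc, hsum⟩, hst⟩ := hps
  have hs : ∀ ω, ∃ s, ∀ a, c ω a = lam (s * a) := fun ω => rep lam hnd (c ω)
  choose s hs using hs
  have hfree : ∀ (v : V) (ω : Ω), ((1, v) : V × V) • ω = ω → v = 1 := by
    intro v ω h
    obtain ⟨e, R, hR⟩ := hst ω
    have h1 : ((1, v) : V × V) ∈ MulAction.stabilizer (V × V) ω := h
    rw [hR] at h1
    obtain ⟨u, hu, hu2⟩ := Subgroup.mem_map.1 h1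
    have h2 : φ e u = 1 := congrArg Prod.fst hu2
    have h3 : u = v := congrArg Prod.snd hu2
    rw [← h3]
    exact (φ e).injective (by rw [h2, map_one])
  let r : Setoid Ω := {
    r := fun ω ω' => ∃ v : V, ((1, v) : V × V) • ω = ω'
    iseqv := {
      refl := fun ω => ⟨1, by
        have : ((1, 1) : V × V) = 1 := rfl
        rw [this, one_smul]⟩
      symm := by
        rintro ω ω' ⟨v, rfl⟩
        refine ⟨v⁻¹, ?_⟩
        rw [smul_smul, Prod.mk_mul_mk, inv_mul_cancel, one_mul]
        exact one_smul _ _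
      trans := by
        rintro ω ω' ω'' ⟨v, rfl⟩ ⟨v', rfl⟩
        refine ⟨v' * v, ?_⟩
        rw [smul_smul, Prod.mk_mul_mk, one_mul] } }
  let K := Quotient r
  have hK : Fintype K := Fintype.ofFinite K
  let f : K × V → Ω := fun p => ((1, p.2) : V × V) • p.1.out
  have hf : Function.Bijective f := by
    constructor
    · rintro ⟨κ, v⟩ ⟨κ', v'⟩ h
      change ((1, v) : V × V) • κ.out = ((1, v') : V × V) • κ'.out at h
      have h1 : ((1, v'⁻¹ * v) : V × V) • κ.out = κ'.out := by
        have h2 : ((1, v'⁻¹ * v) : V × V) = (1, v'⁻¹) * (1, v) := by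
          rw [Prod.mk_mul_mk, one_mul]
        rw [h2, mul_smul, h, smul_smul, Prod.mk_mul_mk, inv_mul_cancel, one_mul]
        exact one_smul _ _
      have h3 : κ = κ' := by
        rw [← Quotient.out_eq κ, ← Quotient.out_eq κ']
        exact Quotient.sound ⟨_, h1⟩
      subst h3
      have h4 : v'⁻¹ * v = 1 := hfree _ _ h1
      have h5 : v = v' := by
        rw [inv_mul_eq_one] at h4
        exact h4.symm
      rw [h5]
    · intro ω
      have h1 : r (Quotient.mk r ω).out ω := Quotient.exact (Quotient.out_eq _)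
      obtain ⟨v, hv⟩ := h1
      exact ⟨(Quotient.mk r ω, v), hv⟩
  refine ⟨K, hK, fun κ => b κ.out, fun κ => s κ.out,
    (Pool.Agent.PSS.H84.rfe F V H K α lam _ _ hsym fun a => ?_).1⟩
  have key : ∀ (κ : K) (v : V), c (f (κ, v)) a • b (f (κ, v)) =
      lam (α v * s κ.out * a) • (b κ.out * α v⁻¹) := by
    intro κ v
    have h1 : c (f (κ, v)) a = lam (α v * s κ.out * a) := by
      have h2 := hc ((1, v) : V × V) κ.out (bi F α ((1, v)⁻¹) a)
      have h3 : bi F α (1, v) (bi F α ((1, v)⁻¹) a) = a := by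
        rw [← Module.End.mul_apply, ← map_mul, mul_inv_cancel, map_one, Module.End.one_apply]
      rw [h3] at h2
      change c (((1, v) : V × V) • κ.out) a = _
      rw [h2, hs]
      have h4 : bi F α ((1, v)⁻¹) a = a * α v := by
        simp [bi]
      rw [h4, ← mul_assoc, hsym, mul_assoc]
    have h5 : b (f (κ, v)) = b κ.out * α v⁻¹ := by
      change b (((1, v) : V × V) • κ.out) = _
      rw [hb]
      simp [bi]
    rw [h1, h5]
  calc ∑ κ : K, ∑ v : V, lam (α v⁻¹ * s κ.out * a) • (b κ.out * α v)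
      = ∑ κ : K, ∑ v : V, lam (α v * s κ.out * a) • (b κ.out * α v⁻¹) := by
        refine Finset.sum_congr rfl fun κ _ => ?_
        exact Fintype.sum_equiv (Equiv.inv V) _ _ fun v => by
          simp only [Equiv.inv_apply, inv_inv]
    _ = ∑ κ : K, ∑ v : V, c (f (κ, v)) a • b (f (κ, v)) := by
        refine Finset.sum_congr rfl fun κ _ => Finset.sum_congr rfl fun v _ => ?_
        rw [key]
    _ = ∑ p : K × V, c (f p) a • b (f p) :=
        (Fintype.sum_prod_type fun p : K × V => c (f p) a • b (f p)).symm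
    _ = ∑ ω, c ω a • b ω := hf.sum_comp fun ω => c ω a • b ω
    _ = a := hsum a

end Pool.Agent.PST.ET.H23
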