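import Pool.Agent.PST.StmtsGU
import Pool.Agent.ATW.Rank2b
import Pool.Agent.AT3.Stmts3

/-!
# PST, row YKR: the known theorem for the groups of rank at most two
-/

open scoped BigOperators

noncomputable section

namespace Pool.Agent.PST.GU.H23

open Pool.Agent.Helper51_AWC Pool.Agent.Helper79_WRA Pool.Agent.PP Pool.Agent.PP.KF
open Pool.Agent.PP.K9 Pool.Agent.PP.K9.H97 Pool.Agent.PP.H75 Pool.Agent.PP.T3 Pool.Agent.PP.T2
open Pool.Agent.PFD (Ei)
open Pool.Agent.PSS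

attribute [local instance] Ideal.Quotient.field

theorem ykr (hT : ∀ (ℓ : ℕ) [Fact ℓ.Prime], TW.Tt ℓ) (hS : SE.S2fStmt) (pos : T3.PosStmt) :
    YkrStmt := by
  intro ℓ _ M _ hM G _ _ e V γ hL hV hR
  have hF : GoodF ℓ (FF M) := H50.fld ℓ Fact.out M hM
  exact TW.rk2_blk hT hS M hM e hL.blk
    (pos ℓ (FF M) hF G e hL.blk V hL.tp.pg hV hL.tp.gd) V hL.tp hR

end Pool.Agent.PST.GU.H23
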